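import Pool.Agent.K7.H94.CIS.WC
import Pool.Agent.R554.Collapse

/-!
# Recognizing CIS graphs is coNP-complete, even for weakly chordal graphs

The decision problem has as input a finite simple graph, given by an adjacency matrix
`M : List (List Bool)` (`matGraph M` is the graph), and asks whether every maximal clique of the
graph meets every maximal stable set.

The graphs which the reduction from the complement of 3SAT produces are weakly chordal, moreover
neither they nor their complements have an induced path with 8 vertices.  So the problem is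
coNP-hard for these inputs, and for `F`-free inputs whenever `F` is not such a graph, for instance
for `F = C_5` (for all `F` with at most 4 vertices it is known to be polynomial).
-/

set_option autoImplicit false

namespace Pool.Agent.Results.MP_bb030f_lc.WeaklyChordalInputs

open Pool.Agent.NPC Pool.Agent.H622R2 Pool.Agent.Y602 Pool.Agent.K7.H94.CIS

/-- **CIS RECOGNITION is coNP-complete, and coNP-hard on weakly chordal graphs.** -/
theorem result :
    -- it is coNP-complete under polynomial-time many-one reductions, and in `P` iff `P = NP`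
    InCoNPP (fun M : List (List Bool) => IsCIS (matGraph M)) ∧
    CoNPHardP (fun M : List (List Bool) => IsCIS (matGraph M)) ∧
    (InPP (fun M : List (List Bool) => IsCIS (matGraph M)) ↔
      ∀ L : Set (List Bool), InNP L → InP L) ∧
    -- every problem which agrees with it on the weakly chordal graphs without induced paths with
    -- 8 vertices in the graph and in its complement is coNP-hard
    (∀ Q : List (List Bool) → Prop,
      (∀ M, M ≠ [] → WeaklyChordal8 (matGraph M) → (Q M ↔ IsCIS (matGraph M))) → CoNPHardP Q) ∧
    -- on these inputs it is solvable in polynomial time iff `P = NP`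
    ((∃ Q : List (List Bool) → Prop, InPP Q ∧
        ∀ M, M ≠ [] → WeaklyChordal8 (matGraph M) → (Q M ↔ IsCIS (matGraph M))) ↔
      ∀ L : Set (List Bool), InNP L → InP L) ∧
    -- the same for `F`-free inputs, if `F` is not such a graph
    (∀ (W : Type) (F : SimpleGraph W), ¬ WeaklyChordal8 F → ∀ Q : List (List Bool) → Prop,
      (∀ M, IsEmpty (F ↪g matGraph M) → (Q M ↔ IsCIS (matGraph M))) → CoNPHardP Q) ∧
    (∀ n : ℕ, 5 ≤ n → ¬ WeaklyChordal8 (SimpleGraph.cycleGraph n)) ∧
    ¬ WeaklyChordal8 (SimpleGraph.pathGraph 8) ∧
    -- for these inputs everything between CIS and the `k`-clique condition is hard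
    (∀ k : ℕ, 2 ≤ k → ∀ Q : List (List Bool) → Prop,
      (∀ M, M ≠ [] → WeaklyChordal8 (matGraph M) → IsCIS (matGraph M) → Q M) →
      (∀ M, M ≠ [] → WeaklyChordal8 (matGraph M) → Q M → CliqueCond k (matGraph M)) →
        CoNPHardP Q) := by
  have h0 : ∀ Q : List (List Bool) → Prop,
      (∀ M, M ≠ [] → WeaklyChordal8 (matGraph M) → (Q M ↔ IsCIS (matGraph M))) →
        CoNPHardP Q := fun Q hQ =>
    sandwich_wc (k := 2) le_rfl (fun M h1 h2 h3 => (hQ M h1 h2).2 h3)
      (fun M h1 h2 h3 => ((hQ M h1 h2).1 h3).cliqueCond 2)
  have h : CoNPHardP (fun M : List (List Bool) => IsCIS (matGraph M)) := h0 _ fun _ _ _ => Iff.rfl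
  refine ⟨inCoNP_cis, h, ⟨fun h' => R554.CoNPHard.collapse h h',
    fun h' => R554.InP.compl (h' _ inCoNP_cis)⟩, h0, ⟨?_, fun h' => ⟨_,
    R554.InP.compl (h' _ inCoNP_cis), fun _ _ _ => Iff.rfl⟩⟩, ?_,
    fun n hn hc => (hc.hole n hn).false (SimpleGraph.Embedding.refl),
    fun hc => hc.path.false (SimpleGraph.Embedding.refl), fun k hk Q => sandwich_wc hk⟩
  · rintro ⟨Q, hQ, hQ'⟩
    exact R554.CoNPHard.collapse (h0 Q hQ') hQ
  · intro W F hF Q hQ
    exact h0 Q fun M _ hM => hQ M ⟨fun e => hF (hM.of_embedding e)⟩

end Pool.Agent.Results.MP_bb030f_lc.WeaklyChordalInputs
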